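import Mathlib
import Pool.Agent.R440.TP.Final

/-!
# Zero products and finite rank products of Toeplitz operators on polyanalytic Bergman spaces

Definitions in `Pool/Agent/R440/TP` used in the statement:

* `dA` : the normalised area measure `(1/π) dx dy` on the open unit disc;
* `dbar φ = (∂φ/∂x + i ∂φ/∂y) / 2`;
* `IsPoly n h` : `∫ h · (∂/∂z̄)ⁿ φ dA = 0` for all smooth `φ` with compact support in the disc,
  i.e. `∂ⁿh/∂z̄ⁿ = 0` in the sense of distributions;
* `Radial f` : `f z = F ‖z‖` for almost all `z`, for some function `F`.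

Proof. Let `f ≠ 0` be radial, `M(s) = ∫ f |z|^{2s} dA`, and call `k` singular if the `n × n` Hankel
matrix `M(k+i+j)` is singular. The `k`-th Fourier mode of a polyanalytic function is
`z^k (c_0 + ... + c_{n-1} |z|^{2(n-1)})` (distributional argument), so for non-singular `k` there is
`e` in `A²ₙ` with `⟪z^k, u⟫ = ⟪e, T_f u⟫` for all `u`. Hankel determinants are moments of a complex
measure on `[0,1]`, so by Müntz' theorem (in von Golitschek's quantitative form) either the
reciprocals of the singular numbers have a finite sum, or all Hankel matrices are singular, and then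
the moments satisfy a linear recurrence (a Kronecker type lemma), which forces `f = 0`. In the first
case all `N × N` determinants of `∫ g |z|^2 u_j z̄^{k_i} dA`, `u_j` entire, vanish for some `N`
(again by Müntz' theorem), and a form of Luecking's theorem for bounded symbols (proved with the
Riemann-Lebesgue lemma and Liouville's theorem) gives `g = 0`. If `g` is radial take adjoints.
-/

set_option autoImplicit false

namespace Pool.Agent.Results.MP_119a45_an.FiniteRankProducts

open MeasureTheory Pool.Agent.R440.TP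
open scoped ENNReal

/-- The Hilbert space `L²(dA)` of the unit disc. -/
def L2D : Type := Lp ℂ 2 dA

noncomputable instance : NormedAddCommGroup L2D :=
  (inferInstance : NormedAddCommGroup (Lp ℂ 2 dA))

noncomputable instance : InnerProductSpace ℂ L2D :=
  (inferInstance : InnerProductSpace ℂ (Lp ℂ 2 dA))

instance : CompleteSpace L2D := (inferInstance : CompleteSpace (Lp ℂ 2 dA))

/-- an element of `L²(dA)` as a function (defined up to null sets) -/
noncomputable def fn (h : L2D) : ℂ → ℂ := ((show Lp ℂ 2 dA from h : Lp ℂ 2 dA) : ℂ → ℂ)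

theorem d_zero (n : ℕ) : IsPoly n (fn 0) := isPoly_zero n

theorem d_add (n : ℕ) {a b : L2D} (ha : IsPoly n (fn a)) (hb : IsPoly n (fn b)) :
    IsPoly n (fn (a + b)) := isPoly_add ha hb

theorem d_smul (n : ℕ) (c : ℂ) {a : L2D} (ha : IsPoly n (fn a)) :
    IsPoly n (fn (c • a)) := isPoly_smul c ha

/-- The polyanalytic Bergman space `A²ₙ`: all `h` in `L²(dA)` with `∂ⁿh/∂z̄ⁿ = 0` in the sense of
distributions. -/
def A2D (n : ℕ) : Submodule ℂ L2D where
  carrier := {h | IsPoly n (fn h)}
  zero_mem' := d_zero n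
  add_mem' := d_add n
  smul_mem' := fun c _ h => d_smul n c h

theorem A2D_closed (n : ℕ) : IsClosed (A2D n : Set L2D) := isClosed_A2 n

noncomputable instance (n : ℕ) : CompleteSpace (A2D n) := (A2D_closed n).completeSpace_coe

/-- the product `f h` of a bounded function and a function in `L²(dA)` -/
noncomputable def mulD (f : ℂ → ℂ) (hf : MemLp f ∞ dA) (h : L2D) : L2D :=
  (mul_top hf (Lp.memLp (show Lp ℂ 2 dA from h))).toLp (fun z => f z * fn h z)

/-- the Toeplitz operator `T_f h = Pₙ (f h)` on `A²ₙ`, where `Pₙ` is the orthogonal projection of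
`L²(dA)` onto `A²ₙ` -/
noncomputable def toeplitz (n : ℕ) (f : ℂ → ℂ) (hf : MemLp f ∞ dA) (h : A2D n) : A2D n :=
  (A2D n).orthogonalProjectionOnto (mulD f hf h)

/-- `T` has finite rank: its values lie in the span of finitely many vectors -/
def FiniteRank (n : ℕ) (T : A2D n → A2D n) : Prop :=
  ∃ (N : ℕ) (w : Fin N → A2D n), ∀ h, ∃ c : Fin N → ℂ, T h = ∑ i, c i • w i

theorem toeplitz_eq (n : ℕ) (f : ℂ → ℂ) (hf : MemLp f ∞ dA) (h : A2D n) :
   toeplitz n f hf h = (show A2D n from toep n f hf (show A2 n from h)) := rfl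

theorem finite_of {n : ℕ} {f g : ℂ → ℂ} {hf : MemLp f ∞ dA} {hg : MemLp g ∞ dA}
    (h : FiniteRank n (fun h => toeplitz n f hf (toeplitz n g hg h))) :
    FiniteDimensional ℂ (LinearMap.range (toep n f hf ∘ₗ toep n g hg)) := by
  obtain ⟨N, w, hw⟩ := h
  set w' : Fin N → A2 n := fun i => (show A2 n from w i) with hw'
  have hle : LinearMap.range (toep n f hf ∘ₗ toep n g hg) ≤ Submodule.span ℂ (Set.range w') := by
    rintro _ ⟨u, rfl⟩
    obtain ⟨c, hc⟩ := hw (show A2D n from u)
    have e : (toep n f hf ∘ₗ toep n g hg) u = ∑ i, c i • w' i := hc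
    rw [e]
    exact Submodule.sum_mem _ fun i _ => Submodule.smul_mem _ _ (Submodule.subset_span ⟨i, rfl⟩)
  have : FiniteDimensional ℂ (Submodule.span ℂ (Set.range w')) :=
    FiniteDimensional.span_of_finite ℂ (Set.finite_range w')
  exact Submodule.finiteDimensional_of_le hle

/-- Q1 and Q2 have the answer yes: on the polyanalytic Bergman space `A²ₙ`, `n ≥ 1`, if `f`, `g` are
bounded, one of them is radial, and `T_f T_g = 0`, or `T_f T_g` has finite rank, then `f = 0` or
`g = 0` almost everywhere on the disc. -/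
theorem result (n : ℕ) (hn : 1 ≤ n) (f g : ℂ → ℂ) (hf : MemLp f ∞ dA) (hg : MemLp g ∞ dA)
    (hr : Radial f ∨ Radial g) :
    ((∀ h, toeplitz n f hf (toeplitz n g hg h) = 0) →
      (∀ᵐ z ∂dA, f z = 0) ∨ (∀ᵐ z ∂dA, g z = 0)) ∧
    (FiniteRank n (fun h => toeplitz n f hf (toeplitz n g hg h)) →
      (∀ᵐ z ∂dA, f z = 0) ∨ (∀ᵐ z ∂dA, g z = 0)) := by
  have key : FiniteRank n (fun h => toeplitz n f hf (toeplitz n g hg h)) →
      (∀ᵐ z ∂dA, f z = 0) ∨ (∀ᵐ z ∂dA, g z = 0) := fun h => main_all hn hf hg hr (finite_of h)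
  refine ⟨fun h0 => key ⟨0, Fin.elim0, fun h => ⟨Fin.elim0, ?_⟩⟩, key⟩
  simp only [Finset.univ_eq_empty, Finset.sum_empty]
  exact h0 h

end Pool.Agent.Results.MP_119a45_an.FiniteRankProducts
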